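import Pool.Agent.Helper14.CV.StD

/-!
# Project CV (MP_3c9520_nt), module Lif: lifting symbols
-/

set_option autoImplicit false

namespace Pool.Agent.Helper28.CV

open Pool.Agent.Helper14.CV

/-- the reduction modulo two -/
private def red (G : ℤ → ℤ → ℤ) : ℤ → ℤ → ZMod 2 := fun p q => ((G p q : ℤ) : ZMod 2)

private theorem red_Sym {r s : ℕ} {G : ℤ → ℤ → ℤ} (h : Sym r s G) : Sym r s (red G) := by
  refine ⟨?_, ?_⟩
  · intro k p q hk hpq
    change ((G (k * p) (k * q) : ℤ) : ZMod 2) = ((G p q : ℤ) : ZMod 2)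
    rw [h.1 k p q hk hpq]
  · intro a b c d hdet hb hc
    obtain ⟨e, he⟩ := h.2 a b c d hdet hb hc
    refine ⟨(e : ZMod 2), ?_⟩
    intro p q hpq
    have h1 := he p q hpq
    have h2 : G (a * p + b * q) (c * p + d * q) = G p q + e := h1
    change ((G (a * p + b * q) (c * p + d * q) : ℤ) : ZMod 2) = ((G p q : ℤ) : ZMod 2) + e
    rw [h2, Int.cast_add]

private theorem red_Tl (l : ℕ) (m : ℤ) (G : ℤ → ℤ → ℤ) : Tl l m (red G) = red (Tl l m G) := by
  funext p q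
  change red G (l * p) q + ∑ j ∈ Finset.range l, red G (p + m * j * q) (l * q)
    = ((G (l * p) q + ∑ j ∈ Finset.range l, G (p + m * j * q) (l * q) : ℤ) : ZMod 2)
  rw [Int.cast_add, Int.cast_sum]
  rfl

private theorem red_Tl_iter (l : ℕ) (m : ℤ) (i : ℕ) (G : ℤ → ℤ → ℤ) :
    (Tl l m)^[i] (red G) = red ((Tl l m)^[i] G) := by
  induction i generalizing G with
  | zero => rfl
  | succ i ih =>
    rw [Function.iterate_succ_apply, Function.iterate_succ_apply, red_Tl, ih]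

private theorem red_ev (m : ℤ) (G : ℤ → ℤ → ℤ) (i j : ℕ) :
    ev m (red G) i j = ((ev m G i j : ℤ) : ZMod 2) := by
  unfold ev
  rw [red_Tl_iter, red_Tl_iter, Int.cast_sub]
  rfl

private theorem red_edge {q q' : ℕ} (μ : ℕ) (u1 u2 v1 v2 : ℤ) (G : ℤ → ℤ → ℤ)
    (x : ZMod q) (y : ZMod q') :
    edgeF μ u1 u2 v1 v2 (red G) x y = ((edgeF μ u1 u2 v1 v2 G x y : ℤ) : ZMod 2) := by
  unfold edgeF
  rw [Int.cast_sub]
  rfl

private theorem sub_edge {q q' : ℕ} (μ : ℕ) (u1 u2 v1 v2 : ℤ) (G H : ℤ → ℤ → ZMod 2)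
    (x : ZMod q) (y : ZMod q') :
    edgeF μ u1 u2 v1 v2 (G + -H) x y = edgeF μ u1 u2 v1 v2 G x y - edgeF μ u1 u2 v1 v2 H x y := by
  unfold edgeF
  simp only [Pi.add_apply, Pi.neg_apply]
  abel

/-- MODULE Lif. -/
theorem hLif (hRel : StRel) (hEx : StEx) (hUni : StUni) (hLifp : StLifp) : StLif := by
  intro r s g hg
  have h1 := hRel (ZMod 2) _ r s g hg
  obtain ⟨F1, F3, hF, hF1, hF3⟩ := hLifp r s _ _ h1
  obtain ⟨G, hG, hG1, hG3⟩ := hEx ℤ _ r s F1 F3 hF
  refine ⟨G, hG, ?_⟩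
  have h2 : Sym (r + 1) (s + 1) (red G + -g) := (red_Sym hG).add hg.neg
  have h3 : EqC (red G + -g) 0 := by
    refine hUni (ZMod 2) _ r s _ h2 ?_ ?_
    · intro x y
      rw [sub_edge, red_edge, hG1, hF1, sub_self]
    · intro x y
      rw [sub_edge, red_edge, hG3, hF3, sub_self]
  have h4 : EqC (red G) g := by
    obtain ⟨c, hc⟩ := h3
    refine ⟨c, fun p q hpq => ?_⟩
    have h5 := hc p q hpq
    simp only [Pi.add_apply, Pi.neg_apply, Pi.zero_apply, zero_add] at h5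
    rw [← h5]
    abel
  intro i j
  rw [← red_ev]
  exact ev_congr _ h4 i j

end Pool.Agent.Helper28.CV
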